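import Pool.Agent.Q192.QD.PerMat

/-!
# Degree-bounded period relations in the families `E_1 × ⋯ × E_n × M`, `E_j` elliptic families and `M` a fixed variety

Let `E_j : y² = 4 x³ - g₂(z) x - g₃(z)` be `n` families of elliptic curves over curves with the coordinate `z` (`g₂, g₃` are
algebraic functions on the open set `U_j`, `j` is not constant), `P_j(z) = (ω₁, ω₂, η₁, η₂)` the period matrix of the lattice
`Λ_(j,z)`, and `κ_1, …, κ_g` **arbitrary** complex numbers, for instance the periods of a fixed variety `M` over a number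
field (in any degree). The product `E_1 × ⋯ × E_n × M` is a family over an `n`-dimensional base `S`. By Legendre's relation
`det P_j = ω₁ η₂ - ω₂ η₁ = ± 2 π i` is constant; the `ℚ̄`-Zariski closure `B_P` of the graph of the period map is given by
these relations and the relations over `ℚ̄` between `2 π i` and the `κ_i`: a polynomial over `ℚ̄` which vanishes at all points
`(w_1, …, w_n, κ)` with `det w_j = det P_j(s)` is in the ideal of the fibre `B_(P,s)`.

The degree-`δ` statement says that at points `s ∈ S(ℚ̄)` outside the Hodge locus there is no relation of degree at most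
`δ` over `κ(s)` between the periods which is not in the ideal of `B_(P,s)`.

We prove: for **any** finite sets `X_1, …, X_n` of algebraic numbers `z` of degree at most `m` and height at most `T`, in
compact subsets of the `U_j`, with `φ_j` different fields `ℚ(z)`, `z ∈ X_j`, the number of points `s = (z_1, …, z_n)` in
`X_1 × ⋯ × X_n` for which there is a relation of degree at most `δ` between the numbers `P_1(z_1), …, P_n(z_n), κ`, with
coefficients in the integers of `ℚ(z_1, …, z_n)` of size at most `T^A`, which does not hold at all points `(w, κ)` with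
`det w_j = det P_j(z_j)`, is at most

  `C T^ε ∑_j φ_j ∏_(i ≠ j) |X_i|`.

The constants are uniform in the sets `X_j` and in the numbers `κ_i`. So almost all points satisfy the degree-`δ` statement
in this range, if `|X_j| ≥ φ_j T^(2ε)`, for instance for all algebraic numbers of height at most `T` in one number field, and for
sparse subsets. The fixed factor `M` may be any variety: its periods need not be known.

The earlier results on this problem concern degree one, cyclic covers of the line at the points `1 / m`, and hypergeometric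
families near the point with maximally unipotent monodromy.

Proof: `η₂` is eliminated with Legendre's relation, the powers of `2 π i` and `κ` are treated as arbitrary coefficients; the
independence of `ω₁, ω₂, η₁` over `ℂ(z)` and the counting theorem for finite sets of algebraic numbers of bounded degree
(`Pool.Agent.Y776`, `Pool.Agent.Y124`, `Pool.Agent.Q192.QD`).
-/

set_option autoImplicit false

open scoped PeriodPair

namespace Pool.Agent.Results.MP_290158_ag.EllipticFamiliesTimesFixed

/-- The Weierstrass zeta function `ζ(z) = ∑ (1/(z-l) + 1/l + z/l²)`, the sum over the lattice (the summand of `l = 0` is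
`1/z`, since `1/0 = 0` in Lean). -/
noncomputable def ζ (L : PeriodPair) (z : ℂ) : ℂ :=
  ∑' l : L.lattice, (1 / (z - l) + 1 / l + z / l ^ 2)

/-- The function `f` is algebraic over `ℂ(z)` on the set `U`. -/
def Algebraic (U : Set ℂ) (f : ℂ → ℂ) : Prop :=
  ∃ P : MvPolynomial (Fin 2) ℂ, P ≠ 0 ∧ ∀ z ∈ U, MvPolynomial.eval ![z, f z] P = 0

/-- A family of elliptic curves `ℂ / Λ_z` with algebraic invariants. -/
structure Family (U : Set ℂ) (Λ : ℂ → PeriodPair) : Prop where
  isOpen : IsOpen U
  isPreconnected : IsPreconnected U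
  /-- the lattice depends analytically on `z` -/
  analytic₁ : AnalyticOnNhd ℂ (fun z => (Λ z).ω₁) U
  analytic₂ : AnalyticOnNhd ℂ (fun z => (Λ z).ω₂) U
  /-- the invariants are algebraic functions -/
  algebraic₂ : Algebraic U (fun z => (Λ z).g₂)
  algebraic₃ : Algebraic U (fun z => (Λ z).g₃)
  /-- `j` is not constant: `g₂³` and `g₃²` are linearly independent -/
  nonconstant : ∀ a b : ℂ, (∀ z ∈ U, a * (Λ z).g₂ ^ 3 = b * (Λ z).g₃ ^ 2) → a = 0 ∧ b = 0

/-- The period matrix `ω₁, ω₂, η₁ = 2 ζ(ω₁ / 2), η₂ = 2 ζ(ω₂ / 2)` of a lattice. -/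
noncomputable def periods (L : PeriodPair) : Fin 4 → ℂ :=
  ![L.ω₁, L.ω₂, 2 * ζ L (L.ω₁ / 2), 2 * ζ L (L.ω₂ / 2)]

/-- The determinant `w₀ w₃ - w₁ w₂`. -/
def det (w : Fin 4 → ℂ) : ℂ := w 0 * w 3 - w 1 * w 2

/-- The point with the `n` matrices `w_j` and the numbers `κ_i`. -/
def point {n g : ℕ} (w : Fin n → Fin 4 → ℂ) (κ : Fin g → ℂ) : (Fin n × Fin 4) ⊕ Fin g → ℂ :=
  Sum.elim (fun q => w q.1 q.2) κ

/-- The algebraic numbers which are zeros of nonzero polynomials of degree at most `m` with integral coefficients of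
absolute value at most `T`. -/
def Numbers (m : ℕ) (T : ℝ) : Set ℂ :=
  {x | ∃ P : Polynomial ℤ, P ≠ 0 ∧ P.natDegree ≤ m ∧ (∀ i, |(P.coeff i : ℝ)| ≤ T) ∧ Polynomial.aeval x P = 0}

/-- The algebraic integers of the field generated by `S` all of whose conjugates have absolute value at most `H`. -/
def Integers (S : Set ℂ) (H : ℝ) : Set ℂ :=
  {c | c ∈ IntermediateField.adjoin ℚ S ∧ IsIntegral ℤ c ∧ ∀ z ∈ (minpoly ℚ c).aroots ℂ, ‖z‖ ≤ H}

/-- The number of the different fields `ℚ(x)`, `x ∈ X`. -/
noncomputable def fields (X : Finset ℂ) : ℕ :=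
  Set.ncard {G : IntermediateField ℚ ℂ | ∃ x ∈ X, G = IntermediateField.adjoin ℚ {x}}

/-- The points `s` in `X_1 × ⋯ × X_n` for which some polynomial of degree at most `δ`, whose coefficients are integers of
the field `ℚ(s)` with all conjugates at most `T ^ A`, vanishes at the periods of the fibre and the numbers `κ_i`, but
not at all points `(w, κ)` with `det w_j = det P_j(s)`. -/
def Exceptional {n g : ℕ} (δ : ℕ) (Λ : Fin n → ℂ → PeriodPair) (κ : Fin g → ℂ) (X : Fin n → Finset ℂ) (A T : ℝ) :
    Set (Fin n → ℂ) :=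
  {s | (∀ j, s j ∈ X j) ∧ ∃ P : MvPolynomial ((Fin n × Fin 4) ⊕ Fin g) ℂ, P.totalDegree ≤ δ ∧
    (∀ e, P.coeff e ∈ Integers (Set.range s) (T ^ A)) ∧
    MvPolynomial.eval (point (fun j => periods (Λ j (s j))) κ) P = 0 ∧
    ∃ w : Fin n → Fin 4 → ℂ, (∀ j, det (w j) = det (periods (Λ j (s j)))) ∧ MvPolynomial.eval (point w κ) P ≠ 0}

/-- For `n` families (equal or different) over `U_j`, compact subsets `K_j` of `U_j`, and all `g`, `m`, `δ`, `A` and
`ε > 0` there are `C`, `T₀` such that for all complex numbers `κ_1, …, κ_g`, all `T ≥ T₀` and all finite sets `X_j ⊆ K_j` of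
algebraic numbers of degree at most `m` and height at most `T` the number of exceptional points in `X_1 × ⋯ × X_n` is at
most `C T^ε ∑_j (number of the fields ℚ(x), x ∈ X_j) ∏_(i ≠ j) |X_i|`. -/
theorem result {n g : ℕ} (U : Fin n → Set ℂ) (Λ : Fin n → ℂ → PeriodPair) (hU : ∀ j, Family (U j) (Λ j))
    (K : Fin n → Set ℂ) (hK : ∀ j, IsCompact (K j)) (hKU : ∀ j, K j ⊆ U j) (m δ : ℕ) (A ε : ℝ) (hε : 0 < ε) :
    ∃ C T₀ : ℝ, ∀ (κ : Fin g → ℂ) (T : ℝ), T₀ ≤ T → ∀ X : Fin n → Finset ℂ,
      (∀ j, ∀ x ∈ X j, x ∈ K j ∧ x ∈ Numbers m T) →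
      (Exceptional δ Λ κ X A T).Finite ∧ ((Exceptional δ Λ κ X A T).ncard : ℝ) ≤
        C * T ^ ε * ∑ j, (fields (X j) : ℝ) * ∏ i ∈ Finset.univ.erase j, ((X i).card : ℝ) := by
  have hF : ∀ j, Q192.QD.Fm0 (U j) (Λ j) := fun j =>
    { isOpen := (hU j).isOpen, conn := (hU j).isPreconnected, an₁ := (hU j).analytic₁, an₂ := (hU j).analytic₂
      ni := (hU j).nonconstant, ag2 := (hU j).algebraic₂, ag3 := (hU j).algebraic₃, ua := fun i => i.elim0
      un := fun i => i.elim0, uw := fun i => i.elim0, ui := fun _ _ => funext fun i => i.elim0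
      la := fun i => i.elim0, le := fun i => i.elim0, li := fun _ _ _ => funext fun i => i.elim0
      Sa := fun i => i.elim0, Se := fun i => i.elim0, Ni := fun _ _ => funext fun i => i.elim0 }
  obtain ⟨C, T₀, H⟩ := Q192.QD.per_count (g := g) m δ hF hK hKU A ε hε
  refine ⟨C, T₀, fun κ T hT X hX => H κ T hT X hX _ ?_⟩
  rintro s ⟨hs, P, hPd, hPc, hP0, w, hw, hPw⟩
  have hp : ∀ j, periods (Λ j (s j)) = Q192.QD.pm (Λ j) (s j) := by
    intro j
    funext k
    fin_cases k
    · rfl
    · rfl
    · exact (Pool.Agent.TH813.Ell.eta_half (Λ j (s j)).ω₁_mem_lattice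
        (Pool.Agent.TH813.Ell.half₁ (Λ j (s j)))).symm
    · exact (Pool.Agent.TH813.Ell.eta_half (Λ j (s j)).ω₂_mem_lattice
        (Pool.Agent.TH813.Ell.half₂ (Λ j (s j)))).symm
  refine ⟨hs, P, hPd, hPc, ?_, w, fun j => ?_, hPw⟩
  · simp only [hp] at hP0
    exact hP0
  · have h1 := hw j
    rw [hp] at h1
    exact h1

end Pool.Agent.Results.MP_290158_ag.EllipticFamiliesTimesFixed
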