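import Mathlib
import Pool.Agent.Q29.HypInd4
import Pool.Agent.Q23.AQ.Few

/-!
# Relations of bounded degree between all the periods of hyperelliptic families, at the points of all number fields of bounded degree

Let `n = 2 g` be even, `a_1 < ⋯ < a_n` real numbers and `C_t` the family of the curves `y ^ 2 = ∏ (x - a_i) (x - t)` of genus `g`,
for `t` in one of the `n + 1` gaps between the `a_i`. We consider the `n (n + 1) / 2` periods `∫ x ^ j dx / y` over the segments
`[e_l, e_(l+1)]` between successive branch points for `j ≤ l`. Their number is the dimension of `Sp_n`, and the other periods are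
algebraic functions of these (and of `t` and `π`) by the Riemann-Legendre relations `P Q(t) Pᵀ = π J`.

We prove first that these periods are algebraically independent over `ℝ(t)` (`independence`), and then the following quantitative
theorem at algebraic points. Let `F` be a number field of degree at most `m`, embedded in the complex numbers, let `ξ_1, …, ξ_g` be
ARBITRARY complex numbers (for instance `π` and other periods, or the `a_i`), and let `X` be any finite set of elements of `F` in
`[A, B]` which are quotients of integers of `F` with conjugates at most `T`. For all but `C T ^ ε |X| ^ (k - 1)` of the `k`-tuples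
of elements of `X` there is no relation, not even an approximate one, of degree at most `d` in each variable between the
`k n (n + 1) / 2` periods of the fibres `C_(q_1), …, C_(q_k)`, with coefficients in `ξ_1 ι(𝓞_F) + ⋯ + ξ_g ι(𝓞_F)` of height at
most `T ^ A`: the value of the polynomial at the periods is at least `T ^ (-B)` times each of its coefficients. The constants
depend neither on the field nor on `X`, nor on the `ξ_i`. For `T = H(q) ^ C` these are the relations of degree at most `d` over
`κ(s)` of the problem, for the fibres of the family `C_(s_1) × ⋯ × C_(s_k)`.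

The proof uses the invariance of the relations between the functions under the symplectic group (starting files of helper118,
`Y118.HP.func_inv`), a theorem on the entries on and below the diagonal of the matrices in a coset of `Sp_n(ℂ)`
(`Q29.HypInd.coset`, by general position and the inverse function theorem), and the theorem of helper23 on approximate relations
at algebraic points (`Q23.AQ.fewR`, from the starting files `Y124`, `Y771`).
-/

set_option autoImplicit false

open NumberField

namespace Pool.Agent.Results.MP_290158_ag.HyperellipticAlgebraicPoints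

/-- The branch points: `t` inserted at place `m` in the sequence of the `a i`. -/
noncomputable def branch {n : ℕ} (a : Fin n → ℝ) (m : Fin (n + 1)) (t : ℝ) : Fin (n + 1) → ℝ :=
  Fin.insertNth (α := fun _ => ℝ) m t a

/-- The period `∫ x^j dx / √|∏ (x - e i)|` over the segment `[e l, e (l + 1)]`. -/
noncomputable def period {n : ℕ} (e : Fin (n + 1) → ℝ) (l j : Fin n) : ℝ :=
  ∫ x in (e l.castSucc)..(e l.succ), x ^ (j : ℕ) / √|∏ i, (x - e i)|

/-- The pairs `(l, j)` with `j ≤ l`. -/
abbrev Lower (n : ℕ) : Type := {x : Fin n × Fin n // x.2 ≤ x.1}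

/-- The periods of `y ^ 2 = ∏ (x - a_i) (x - t)` for the pairs `(l, j)` with `j ≤ l`. -/
noncomputable def periods {n : ℕ} (a : Fin n → ℝ) (m : Fin (n + 1)) (x : Lower n) (t : ℝ) : ℝ :=
  period (branch a m t) x.1.1 x.1.2

/-- The elements of a number field `F`, with an embedding `ι`, which are in `[a, b]` and are quotients of integers of `F` all of
whose conjugates have absolute value at most `T`. -/
def IsPoint {F : Type} [Field F] (ι : F →+* ℂ) (a b T : ℝ) (x : F) : Prop :=
  (∃ t : ℝ, a ≤ t ∧ t ≤ b ∧ ι x = t) ∧
    ∃ α β : 𝓞 F, β ≠ 0 ∧ (∀ φ : F →+* ℂ, ‖φ α‖ ≤ T ∧ ‖φ β‖ ≤ T) ∧ x = α / β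

/-- The exceptional `k`-tuples of elements of the finite subset `X` of the number field `F`: there is a polynomial `P` of degree
at most `d` in each variable, with coefficients of the form `∑ ξ_i ι(c_i)`, where the `c_i` are integers of `F` all of whose
conjugates have absolute value at most `T ^ D`, such that the value of `P` at the periods of `C_(q_1), …, C_(q_k)` is at most
`T ^ (-R)` times the absolute value of some nonzero coefficient of `P`. -/
def Exceptional {n : ℕ} (a : Fin n → ℝ) (m : Fin (n + 1)) (k d : ℕ) {g : ℕ} (F : Type) [Field F] (ι : F →+* ℂ)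
    (ξ : Fin g → ℂ) (X : Finset F) (D R T : ℝ) : Set (Fin k → F) :=
  {q | (∀ h, q h ∈ X) ∧ ∃ P : MvPolynomial (Fin k × Lower n) ℂ, (∀ x, P.degreeOf x ≤ d) ∧
    (∀ s, ∃ c : Fin g → 𝓞 F, (∀ i (φ : F →+* ℂ), ‖φ (c i)‖ ≤ T ^ D) ∧ P.coeff s = ∑ i, ξ i * ι (c i)) ∧
    ∃ s₀, P.coeff s₀ ≠ 0 ∧ ‖MvPolynomial.aeval (fun x : Fin k × Lower n => ((periods a m x.2 (ι (q x.1)).re : ℝ) : ℂ)) P‖ ≤
      T ^ (-R) * ‖P.coeff s₀‖}

/-- The `n (n + 1) / 2` periods are algebraically independent over `ℝ(t)`: there is no polynomial relation with polynomial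
coefficients between these functions on an interval of a gap. -/
theorem independence {n : ℕ} (hn : Even n) (a : Fin n → ℝ) (m : Fin (n + 1)) (A B : ℝ) (hAB : A < B)
    (hgap : ∀ t, A ≤ t → t ≤ B → StrictMono (branch a m t)) (P : MvPolynomial (Lower n) (Polynomial ℝ))
    (hP : ∀ t, A ≤ t → t ≤ B → MvPolynomial.eval₂ (Polynomial.evalRingHom t) (fun x => periods a m x t) P = 0) : P = 0 := by
  classical
  -- a common bound of the degrees
  obtain ⟨d, hd⟩ : ∃ d : ℕ, ∀ x, P.degreeOf x ≤ d := ⟨Finset.univ.sup fun x => P.degreeOf x, fun x =>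
    Finset.le_sup (f := fun x => P.degreeOf x) (Finset.mem_univ x)⟩
  obtain ⟨ha, -⟩ := Pool.Agent.Q29.HypInd.inGap_of (hgap A le_rfl hAB.le)
  have hind := Pool.Agent.Q29.HypInd.fH_ind hn ha m d A B hAB
    (fun t ht => (Pool.Agent.Q29.HypInd.inGap_of (hgap t ht.1 ht.2)).2)
  let sO : (Lower n → Fin (d + 1)) → (Lower n →₀ ℕ) := fun e => Finsupp.equivFunOnFinite.symm fun x => (e x : ℕ)
  have hzero := hind (fun e => P.coeff (sO e)) (fun t ht => by
    rw [← hP t ht.1 ht.2, MvPolynomial.eval₂_eq']
    have hsub : P.support ⊆ Finset.univ.image sO := by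
      intro s hs
      have hle : ∀ y, s y ≤ d := fun y => (MvPolynomial.monomial_le_degreeOf y hs).trans (hd y)
      rw [Finset.mem_image]
      refine ⟨fun y => ⟨s y, Nat.lt_succ_of_le (hle y)⟩, Finset.mem_univ _, ?_⟩
      ext y
      rfl
    have hinj : Function.Injective sO := by
      intro e e' h
      funext x
      have h1 := DFunLike.congr_fun h x
      exact Fin.ext h1
    rw [Finset.sum_subset hsub (fun s _ hs => by
      rw [MvPolynomial.notMem_support_iff.1 hs, map_zero, zero_mul]), Finset.sum_image (fun e _ e' _ h => hinj h)]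
    rfl)
  ext1 s
  rw [MvPolynomial.coeff_zero]
  by_contra hne
  have hs : s ∈ P.support := MvPolynomial.mem_support_iff.2 hne
  have hle : ∀ y, s y ≤ d := fun y => (MvPolynomial.monomial_le_degreeOf y hs).trans (hd y)
  have h1 := congrFun hzero (fun y => ⟨s y, Nat.lt_succ_of_le (hle y)⟩)
  have h2 : sO (fun y => ⟨s y, Nat.lt_succ_of_le (hle y)⟩) = s := by
    ext y
    rfl
  simp only [h2] at h1
  exact hne h1

/-- Let `n` be even, `m ≤ n` and `a_1, …, a_n` real numbers such that for all `t` in `[A, B]` the numbers `a_i` with `t` inserted at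
place `m` are strictly increasing. For all `D'`, `k`, `g`, `d`, `D` and `ε > 0` there are `R`, `C`, `T₀` such that for every number
field `F` of degree at most `D'`, every embedding `ι` of `F` in `ℂ`, all complex numbers `ξ_1, …, ξ_g`, all `T ≥ T₀` and every finite
set `X` of points of `F` in `[A, B]` of height at most `T`, at most `C T^ε |X|^(k - 1)` of the elements of `X ^ k` are exceptional. -/
theorem result {n : ℕ} (hn : Even n) (a : Fin n → ℝ) (m : Fin (n + 1)) (A B : ℝ) (hAB : A < B)
    (hgap : ∀ t, A ≤ t → t ≤ B → StrictMono (branch a m t)) (D' k g d : ℕ) (D ε : ℝ) (hε : 0 < ε) :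
    ∃ R C T₀ : ℝ, ∀ (F : Type) [Field F] [NumberField F], Module.finrank ℚ F ≤ D' → ∀ (ι : F →+* ℂ) (ξ : Fin g → ℂ) (T : ℝ),
      T₀ ≤ T → ∀ X : Finset F, (∀ x ∈ X, IsPoint ι A B T x) →
        (Exceptional a m k d F ι ξ X D R T).Finite ∧
        ((Exceptional a m k d F ι ξ X D R T).ncard : ℝ) ≤ C * T ^ ε * (X.card : ℝ) ^ (k - 1) := by
  obtain ⟨ha, -⟩ := Pool.Agent.Q29.HypInd.inGap_of (hgap A le_rfl hAB.le)
  have hg : ∀ t ∈ Set.Icc A B, Pool.Agent.Y118.HP.InGap a m t := fun t ht =>
    (Pool.Agent.Q29.HypInd.inGap_of (hgap t ht.1 ht.2)).2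
  obtain ⟨R, C, T₀, h⟩ := Pool.Agent.Q23.AQ.fewR (periods a m) A B
    (fun x t ht => Pool.Agent.Q29.HypInd.fH_an ha m x (hg t ht))
    (fun d => Pool.Agent.Q29.HypInd.fH_ind hn ha m d A B hAB hg) D' k g d D ε hε
  refine ⟨R, C, T₀, fun F _ _ hF ι ξ T hT X hX => ⟨?_, h F hF ι ξ T hT X hX⟩⟩
  classical
  refine (Finset.finite_toSet (Fintype.piFinset fun _ : Fin k => X)).subset fun q hq => ?_
  rw [Finset.mem_coe, Fintype.mem_piFinset]
  exact hq.1

end Pool.Agent.Results.MP_290158_ag.HyperellipticAlgebraicPoints
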