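import Pool.Agent.Q25.PsWin
import Pool.Agent.Results.MP_290158_ag.CyclicCoverWindows

set_option autoImplicit false

/-! # Degree-bounded period relations at the points `1 / m`, `m` given by the digits or the multiples of a real number

For the families of cyclic covers of the line of `CyclicCoverWindows`, every number field `K` and every degree `δ` there
is `θ < 1` such that for almost every real number `α` the degree `δ` statement over `K` holds at `s = 1 / m` for ALL
numbers `m` written by `k` consecutive digits of `α` after one of the first `g ^ (κ k)` places, `κ < 1 - θ`, in every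
base `g`, if `k` is large.  The exceptional set of `α` has Hausdorff dimension at most `(θ + η) / (1 + η)` if only the
first `η k` places are used.  The same for all integers `m` with `|m - α v_k| ≤ w_k`, `α` outside a set of
`d`-dimensional Hausdorff measure zero, if `∑ v_k ^ t (w_k / v_k) ^ d` converges for some `t > θ`. -/

namespace Pool.Agent.Results.MP_290158_ag.RandomReals

open CyclicCoverWindows

/-- The degree `δ` statement over `K` holds at `s = 1 / m` for all the periods of the curves
`C_z : y ^ N = (x - z) ^ e₀ ∏ (x - a j) ^ (e j)`, which are functions on the disc `|z| < r`. -/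
def Holds {n σ κ : ℕ} (N e₀ : ℕ) (x y : Fin σ → ℝ → ℂ) (K : Type) [Field K] [NumberField K] [Algebra K ℂ]
    (r : ℝ) (δ m : ℕ) : Prop :=
  1 / (m : ℝ) < r ∧ DegreeStatement K (periods (n := n) (κ := κ) N e₀ x y) r δ (1 / (m : K))

/-- **Theorem.** For the families of cyclic covers of the line with algebraic branch points, every number field `K` and
every degree `δ` there are `r > 0` and `θ < 1` such that the degree `δ` statement over `K` holds at `s = 1 / m` for
`m` random in the sense of `RandomReals θ` (digits and dilates of almost all real numbers, with Hausdorff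
dimensions). -/
theorem result {n N e₀ σ κ : ℕ} (hN : 0 < N) (he₀ : 0 < e₀) (a : Fin n → ℂ) (ha : Function.Injective a)
    (halg : ∀ j, IsAlgebraic ℚ (a j)) (ha0 : ∀ j, a j ≠ 0) (e : Fin n → ℕ) {ρ : ℝ} (hρ : 0 < ρ)
    (x y : Fin σ → ℝ → ℂ) (path : ∀ s, IsClosedPath N e₀ a e ρ (x s) (y s))
    (K : Type) [Field K] [NumberField K] [Algebra K ℂ] (δ : ℕ) :
    ∃ r : ℝ, 0 < r ∧ r ≤ ρ ∧ ∃ θ : ℝ, 0 ≤ θ ∧ θ < 1 ∧
      Pool.Agent.Q21.DW.RandomReals θ (fun _ : Unit => Holds (n := n) (κ := κ) N e₀ x y K r δ) := by
  obtain ⟨r, hr, hrρ, c, hc, M, h⟩ := CyclicCoverWindows.result (κ := κ) hN he₀ a ha halg ha0 e hρ x y path K δ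
  refine ⟨r, hr, hrρ, 1 - min c 1, by linarith [min_le_right c 1], by linarith [lt_min hc one_pos], ?_⟩
  refine Pool.Agent.Q21.DW.randomReals_of (B := fun _ m => ¬ Holds (n := n) (κ := κ) N e₀ x y K r δ m)
    (by linarith [min_le_right c 1]) (by linarith [lt_min hc one_pos]) (fun _ => ?_)
    (fun _ m _ h2 => not_not.1 h2)
  refine Pool.Agent.Q25.PsWin.ps_windows (lt_min hc one_pos) (min_le_right _ _) (M := M) ?_
  intro N₀ hN₀
  obtain ⟨E, hE, hm⟩ := h N₀ hN₀
  refine ⟨E, hE, fun m h1 h2 h3 => not_not.2 (hm m h1 (h2.trans ?_) h3)⟩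
  have h4 : (1 : ℝ) ≤ N₀ := by exact_mod_cast hN₀
  have h5 := Real.rpow_le_rpow_of_exponent_le h4 (min_le_left c 1)
  linarith

end Pool.Agent.Results.MP_290158_ag.RandomReals
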