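import Pool.Agent.Q229.RAE
import Pool.Agent.Q29.HypInd4

/-!
# Period relations in products of hyperelliptic and Legendre families at ALL rational points near almost every real point

Let `n` be even, `a_1 < ⋯ < a_n` real and `C_t : y² = ∏ (x - a_i) (x - t)` (genus `n / 2`), `t` in a gap `(c, y)` of the `a_i`, and
let `E_(i,t) : y² = x (x - 1) (x - (t - α_i) / (γ_i - α_i))`, `i < N`, be Legendre families with nested singular points
`c < α_(N-1) < ⋯ < α_0 < t < γ_0 < ⋯ < γ_(N-1) < y`. The family `C_t × E_(0,t) × ⋯ × E_(N-1,t)` over the `t`-line has the periods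
`∫ x^j dx / y` over the segments between successive branch points, `j ≤ l` (as many as the dimension of `Sp_n`; the others are
algebraic functions of these, of `π` and of `t`), and `K(s)`, `E(s)`, `K(1 - s)`, `s = (t - α_i) / (γ_i - α_i)`.

We consider all these periods at `k` rational points `q_1, …, q_k` (periods of the fibres of the `k`-fold product of the family, with a
different configuration in each factor).

The starting file `HyperellipticAlgebraicPoints` counts the exceptional tuples of points for the hyperelliptic families; with the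
counting theorem of `Pool.Agent.Y120.RealPolys` and coverings we obtain all rational points near all real points outside a set of
small Hausdorff dimension.
-/

set_option autoImplicit false

open MeasureTheory Filter

namespace Pool.Agent.Results.MP_290158_ag.RationalsNearRealPoints

/-- The branch points: `t` inserted at place `m` in the sequence of the `a i`. -/
noncomputable def branch {n : ℕ} (a : Fin n → ℝ) (m : Fin (n + 1)) (t : ℝ) : Fin (n + 1) → ℝ :=
  Fin.insertNth (α := fun _ => ℝ) m t a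

/-- `∫ x ^ j dx / y` over the `l`-th segment `[e_l, e_(l+1)]` between successive branch points -/
noncomputable def period {n : ℕ} (e : Fin (n + 1) → ℝ) (l j : Fin n) : ℝ :=
  ∫ x in (e l.castSucc)..(e l.succ), x ^ (j : ℕ) / √|∏ i, (x - e i)|

/-- the pairs `(l, j)` with `j ≤ l` -/
abbrev Lower (n : ℕ) : Type := {x : Fin n × Fin n // x.2 ≤ x.1}

/-- `K(t) = ∫_0^(π/2) dθ / √(1 - t sin²θ)`. -/
noncomputable def K (t : ℝ) : ℝ := ∫ θ in (0 : ℝ)..(Real.pi / 2), 1 / √(1 - t * Real.sin θ ^ 2)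

/-- `E(t) = ∫_0^(π/2) √(1 - t sin²θ) dθ`. -/
noncomputable def E (t : ℝ) : ℝ := ∫ θ in (0 : ℝ)..(Real.pi / 2), √(1 - t * Real.sin θ ^ 2)

/-- `K(s)`, `E(s)`, `K(1 - s)` for `s = (t - α) / (γ - α)` -/
noncomputable def legendre (α γ t : ℝ) : Fin 3 → ℝ :=
  ![K ((t - α) / (γ - α)), E ((t - α) / (γ - α)), K ((γ - t) / (γ - α))]

/-- The numbers `π` and, for `j < k`: the periods `K`, `E`, `K` of the `N` Legendre curves and the periods `j ≤ l` of the
hyperelliptic curve with the branch points `a_j` and `q_j`. -/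
noncomputable def numbers {k n N : ℕ} (a : Fin k → Fin n → ℝ) (m : Fin k → Fin (n + 1)) (α γ : Fin k → Fin N → ℝ)
    (q : Fin k → ℚ) (z : Option (Fin k × ((Fin N × Fin 3) ⊕ Lower n))) : ℝ :=
  match z with
  | none => Real.pi
  | some (j, Sum.inl p) => legendre (α j p.1) (γ j p.1) (q j) p.2
  | some (j, Sum.inr x) => period (branch (a j) (m j) (q j)) x.1.1 x.1.2

/-- **Theorem.** Let `k ≥ 1`, `n` even, `a_j` configurations of `n` real numbers, `(c_j, y_j)` intervals on which
`t` is at place `m_j` among the `a_j`, `α_j`, `γ_j` nested (`α` decreasing, `γ` increasing, all in `(c_j, y_j)`). Domain: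
`c_j < x_j < y_j` and `α_(j,i) < x_j < γ_(j,i)`. Then for every `τ > 0` there is a set `Z ⊂ ℝ^k` of Hausdorff dimension at most
`2 (k - 1) / τ` (dimension `0` for `k = 1`), and of Lebesgue measure zero if `2 (k - 1) < k τ`, such that for all `x ∉ Z` in the domain,
all `d`, `A`, some `B` and all sufficiently large `T` the following holds for ALL rational points `q` with denominators at most `T`
and `|x_j - q_j| ≤ T ^ (-τ)`: every nonzero integer polynomial of degree at most `d` in each variable with coefficients at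
most `T ^ A` takes at these numbers a value larger than `T ^ (-B)` in absolute value. -/
theorem result (k n N : ℕ) (hk : 1 ≤ k) (hn : Even n) (a : Fin k → Fin n → ℝ) (m : Fin k → Fin (n + 1))
    (c y : Fin k → ℝ) (hgap : ∀ j t, c j < t → t < y j → StrictMono (branch (a j) (m j) t))
    (α γ : Fin k → Fin N → ℝ) (hα : ∀ j, StrictAnti (α j)) (hγ : ∀ j, StrictMono (γ j))
    (hc : ∀ j i, c j < α j i) (hy : ∀ j i, γ j i < y j) (τ : ℝ) (hτ : 0 < τ) :
    ∃ Z : Set (Fin k → ℝ), dimH Z ≤ ENNReal.ofReal (2 * ((k : ℝ) - 1) / τ) ∧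
      (2 * ((k : ℝ) - 1) < k * τ → volume Z = 0) ∧
      ∀ x : Fin k → ℝ, (∀ j, (c j < x j ∧ x j < y j) ∧ ∀ i, α j i < x j ∧ x j < γ j i) → x ∉ Z →
        ∀ (d : ℕ) (A : ℝ), ∃ B : ℝ, ∀ᶠ T : ℝ in atTop,
        ∀ q : Fin k → ℚ, (∀ j, ((q j).den : ℝ) ≤ T ∧ |x j - q j| ≤ T ^ (-τ)) →
        ∀ P : MvPolynomial (Option (Fin k × ((Fin N × Fin 3) ⊕ Lower n))) ℤ, P ≠ 0 → (∀ z, P.degreeOf z ≤ d) →
          (∀ u, |((P.coeff u : ℤ) : ℝ)| ≤ T ^ A) → T ^ (-B) < |MvPolynomial.aeval (numbers a m α γ q) P| := by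
  refine Pool.Agent.Q229.RA.masterOR hk (fun j p t => Pool.Agent.Q29.HypInd.fHL (a j) (m j) (α j) (γ j) p t)
    (fun j => Set.Ioo (c j) (y j) ∩ ⋂ i, Set.Ioo (α j i) (γ j i))
    (fun j => isOpen_Ioo.inter (isOpen_iInter_of_finite fun i => isOpen_Ioo)) ?_ ?_
    (fun q => numbers a m α γ q) (fun _ => rfl) ?_ τ hτ |>.imp fun Z hZ => ⟨hZ.1, hZ.2.1, fun x hx hxZ =>
      hZ.2.2 x (fun j => ⟨(hx j).1, Set.mem_iInter.2 fun i => (hx j).2 i⟩) hxZ⟩
  · intro j p t ht
    obtain ⟨ε, hε, hball⟩ := Metric.isOpen_iff.1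
      ((isOpen_Ioo.inter (isOpen_iInter_of_finite fun i => isOpen_Ioo) :
        IsOpen (Set.Ioo (c j) (y j) ∩ ⋂ i, Set.Ioo (α j i) (γ j i)))) t ht
    have h1 : t - ε / 2 ∈ Metric.ball t ε := by
      rw [Metric.mem_ball, Real.dist_eq, abs_lt]
      constructor <;> linarith
    have h2 : t + ε / 2 ∈ Metric.ball t ε := by
      rw [Metric.mem_ball, Real.dist_eq, abs_lt]
      constructor <;> linarith
    have h1' := hball h1
    have h2' := hball h2
    exact Pool.Agent.Q29.HypInd.fHL_an (a j) (m j) (α j) (γ j) (c j) (y j) (t - ε / 2) (t + ε / 2) h1'.1.1 h2'.1.2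
      (by linarith) (hgap j) (fun i => ⟨(Set.mem_iInter.1 h1'.2 i).1, (Set.mem_iInter.1 h2'.2 i).2⟩) p t
      ⟨by linarith, by linarith⟩
  · intro j A B hAB hsub d
    have hA := hsub ⟨le_rfl, hAB.le⟩
    have hB := hsub ⟨hAB.le, le_rfl⟩
    exact Pool.Agent.Q29.HypInd.fHL_ind hn (a j) (m j) (α j) (γ j) (hα j) (hγ j) (c j) (y j) A B hA.1.1 hB.1.2 hAB (hgap j)
      (fun i => ⟨(Set.mem_iInter.1 hA.2 i).1, (Set.mem_iInter.1 hB.2 i).2⟩) (hc j) (hy j) d
  · rintro q hq j (⟨i, l⟩ | p)
    · fin_cases l <;> rfl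
    · rfl

end Pool.Agent.Results.MP_290158_ag.RationalsNearRealPoints
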